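import Pool.Agent.H80.PK.KStmts

/-!
# Row SIM of the board `pkt`: near idempotents are similar
-/

set_option autoImplicit false

namespace Pool.PK

open Filter Topology

theorem SIM : SIMStmt := by
  intro A _ _ e he
  have hc : Continuous (fun f : A => f * e + (1 - f) * (1 - e)) := by fun_prop
  have h1 : (fun f : A => f * e + (1 - f) * (1 - e)) e = 1 := by
    show e * e + (1 - e) * (1 - e) = 1
    have : (1 - e) * (1 - e) = 1 - e - e + e * e := by noncomm_ring
    rw [this, he]
    abel
  have hU : {x : A | IsUnit x} ∈ 𝓝 ((fun f : A => f * e + (1 - f) * (1 - e)) e) := by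
    rw [h1]
    exact Units.isOpen.mem_nhds isUnit_one
  have hN := hc.continuousAt (x := e) hU
  rw [Filter.mem_map, Metric.mem_nhds_iff] at hN
  obtain ⟨δ, hδ, hb⟩ := hN
  refine ⟨δ, hδ, fun f hf hfe => ⟨f * e + (1 - f) * (1 - e), ?_, ?_⟩⟩
  · exact hb (by rw [Metric.mem_ball, dist_eq_norm]; exact hfe)
  · have e1 : (f * e + (1 - f) * (1 - e)) * e = f * (e * e) + (1 - f) * (e - e * e) := by
      noncomm_ring
    have e2 : f * (f * e + (1 - f) * (1 - e)) = f * f * e + (f - f * f) * (1 - e) := by
      noncomm_ring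
    rw [e1, e2, he, hf, sub_self, sub_self, mul_zero, zero_mul]

end Pool.PK
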